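import Mathlib
import Pool.Agent.H45.BaireJets

set_option autoImplicit false

open Set Filter Topology TopologicalSpace

namespace Pool.Agent.Results.MP_2e37b9_an.BaireDense

/-- The extension by zero to the plane of a function on the open set `G`. -/
noncomputable def ext0 {G : Opens ℂ} (f : G → ℂ) : ℂ → ℂ :=
  Function.extend (fun z : G => (z : ℂ)) f 0

lemma ext0_apply {G : Opens ℂ} (f : G → ℂ) (z : G) : ext0 f z = f z :=
  Subtype.val_injective.extend_apply f 0 z

lemma ext0_add {G : Opens ℂ} (f g : G → ℂ) : ext0 (f + g) = ext0 f + ext0 g := by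
  funext z
  by_cases hz : z ∈ G
  · have := ext0_apply (f + g) ⟨z, hz⟩
    have h1 := ext0_apply f ⟨z, hz⟩
    have h2 := ext0_apply g ⟨z, hz⟩
    simp only at this h1 h2
    rw [this, Pi.add_apply, Pi.add_apply, h1, h2]
  · have h : ¬ ∃ a : G, (a : ℂ) = z := by
      rintro ⟨a, rfl⟩
      exact hz a.2
    simp [ext0, Function.extend_apply' _ _ _ h]

lemma ext0_smul {G : Opens ℂ} (c : ℂ) (f : G → ℂ) : ext0 (c • f) = c • ext0 f := by
  funext z
  by_cases hz : z ∈ G
  · have := ext0_apply (c • f) ⟨z, hz⟩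
    have h1 := ext0_apply f ⟨z, hz⟩
    simp only at this h1
    rw [this, Pi.smul_apply, Pi.smul_apply, h1]
  · have h : ¬ ∃ a : G, (a : ℂ) = z := by
      rintro ⟨a, rfl⟩
      exact hz a.2
    simp [ext0, Function.extend_apply' _ _ _ h]

/-- The vector space `A^∞(G)`: functions on `G` that are holomorphic and all of whose derivatives
extend continuously to the closure of `G`. -/
def AInfty (G : Opens ℂ) : Submodule ℂ (G → ℂ) where
  carrier := {f | DifferentiableOn ℂ (ext0 f) (G : Set ℂ) ∧ ∀ j : ℕ, ∃ g : ℂ → ℂ,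
    ContinuousOn g (closure (G : Set ℂ)) ∧ ∀ z ∈ G, g z = iteratedDeriv j (ext0 f) z}
  zero_mem' := by
    have h0 : ext0 (0 : G → ℂ) = fun _ => 0 := by
      have := ext0_smul (0 : ℂ) (0 : G → ℂ)
      rw [zero_smul, zero_smul] at this
      exact this
    refine ⟨by rw [h0]; exact differentiableOn_const 0, fun j => ⟨fun _ => 0, continuousOn_const,
      fun z _ => ?_⟩⟩
    rw [h0, iteratedDeriv_const]
    simp
  add_mem' := by
    rintro f g ⟨hf, hf'⟩ ⟨hg, hg'⟩
    refine ⟨by rw [ext0_add]; exact hf.add hg, fun j => ?_⟩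
    obtain ⟨F, hF, hF'⟩ := hf' j
    obtain ⟨H, hH, hH'⟩ := hg' j
    refine ⟨F + H, hF.add hH, fun z hz => ?_⟩
    have h1 : ContDiffAt ℂ j (ext0 f) z := (hf.contDiffOn G.isOpen).contDiffAt (G.isOpen.mem_nhds hz)
    have h2 : ContDiffAt ℂ j (ext0 g) z := (hg.contDiffOn G.isOpen).contDiffAt (G.isOpen.mem_nhds hz)
    rw [ext0_add, iteratedDeriv_add h1 h2, ← hF' z hz, ← hH' z hz]
    rfl
  smul_mem' := by
    rintro c f ⟨hf, hf'⟩
    refine ⟨by rw [ext0_smul]; exact hf.const_smul c, fun j => ?_⟩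
    obtain ⟨F, hF, hF'⟩ := hf' j
    refine ⟨c • F, hF.const_smul c, fun z hz => ?_⟩
    have h1 : ContDiffAt ℂ j (ext0 f) z := (hf.contDiffOn G.isOpen).contDiffAt (G.isOpen.mem_nhds hz)
    rw [ext0_smul, iteratedDeriv_const_smul h1 c, ← hF' z hz]
    rfl

/-- The space `A^∞(G)` as a type, to be equipped with its own topology. -/
def ASpace (G : Opens ℂ) : Type := AInfty G

noncomputable instance (G : Opens ℂ) : AddCommGroup (ASpace G) :=
  inferInstanceAs (AddCommGroup (AInfty G))

noncomputable instance (G : Opens ℂ) : Module ℂ (ASpace G) :=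
  inferInstanceAs (Module ℂ (AInfty G))

/-- The function on `G` underlying an element of `A^∞(G)`. -/
def ASpace.fn {G : Opens ℂ} (f : ASpace G) : G → ℂ := Subtype.val (p := fun x => x ∈ AInfty G) f

lemma ASpace.mem {G : Opens ℂ} (f : ASpace G) : f.fn ∈ AInfty G :=
  Subtype.property (p := fun x => x ∈ AInfty G) f

lemma ASpace.fn_add {G : Opens ℂ} (f g : ASpace G) : (f + g).fn = f.fn + g.fn := rfl

lemma ASpace.fn_smul {G : Opens ℂ} (c : ℂ) (f : ASpace G) : (c • f).fn = c • f.fn := rfl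

lemma ASpace.ext {G : Opens ℂ} {f g : ASpace G} (h : f.fn = g.fn) : f = g := Subtype.ext h

/-- The derivatives are bounded on relatively compact pieces. -/
lemma bddAbove {G : Opens ℂ} (f : ASpace G) {K : Set ℂ} (hK : IsCompact K)
    (hKG : K ⊆ closure (G : Set ℂ)) (j : ℕ) :
    BddAbove (range fun z : (K ∩ G : Set ℂ) => ‖iteratedDeriv j (ext0 f.fn) z‖) := by
  obtain ⟨g, hg, hg'⟩ := f.mem.2 j
  obtain ⟨C, hC⟩ := hK.exists_bound_of_continuousOn (hg.mono hKG)
  refine ⟨C, ?_⟩
  rintro _ ⟨z, rfl⟩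
  simp only
  rw [← hg' z z.2.2]
  exact hC z z.2.1

/-- The seminorm sending `f` to the supremum of the modulus of the `j`-th derivative over the points
of `G` in the compact subset `K` of the closure. -/
noncomputable def sn (G : Opens ℂ) (p : {K : Set ℂ // IsCompact K ∧ K ⊆ closure (G : Set ℂ)} × ℕ) :
    Seminorm ℂ (ASpace G) :=
  Seminorm.of (fun f => ⨆ z : (p.1.1 ∩ G : Set ℂ), ‖iteratedDeriv p.2 (ext0 f.fn) z‖)
    (by
      intro f g
      apply Real.iSup_le
      · intro z
        have h1 : ContDiffAt ℂ p.2 (ext0 f.fn) z :=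
          (f.mem.1.contDiffOn G.isOpen).contDiffAt (G.isOpen.mem_nhds z.2.2)
        have h2 : ContDiffAt ℂ p.2 (ext0 g.fn) z :=
          (g.mem.1.contDiffOn G.isOpen).contDiffAt (G.isOpen.mem_nhds z.2.2)
        rw [ASpace.fn_add, ext0_add, iteratedDeriv_add h1 h2]
        exact (norm_add_le _ _).trans (add_le_add
          (le_ciSup (bddAbove f p.1.2.1 p.1.2.2 p.2) z) (le_ciSup (bddAbove g p.1.2.1 p.1.2.2 p.2) z))
      · exact add_nonneg (Real.iSup_nonneg fun _ => norm_nonneg _)
          (Real.iSup_nonneg fun _ => norm_nonneg _))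
    (by
      intro c f
      rw [Real.mul_iSup_of_nonneg (norm_nonneg c)]
      congr 1
      funext z
      have h1 : ContDiffAt ℂ p.2 (ext0 f.fn) z :=
        (f.mem.1.contDiffOn G.isOpen).contDiffAt (G.isOpen.mem_nhds z.2.2)
      rw [ASpace.fn_smul, ext0_smul, iteratedDeriv_const_smul h1 c, norm_smul])

instance (G : Opens ℂ) : Nonempty ({K : Set ℂ // IsCompact K ∧ K ⊆ closure (G : Set ℂ)} × ℕ) :=
  ⟨⟨⟨∅, isCompact_empty, empty_subset _⟩, 0⟩⟩

/-- The locally convex topology of `A^∞(G)` generated by the seminorms `sn G`. -/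
noncomputable instance (G : Opens ℂ) : TopologicalSpace (ASpace G) :=
  (SeminormFamily.moduleFilterBasis (𝕜 := ℂ) (sn G)).topology

lemma withSeminorms (G : Opens ℂ) : WithSeminorms (𝕜 := ℂ) (sn G) := ⟨rfl⟩

/-- Functions in `H(G)` without holomorphic extension to a strictly larger domain. -/
def HeTilde (G : Opens ℂ) : Set (G → ℂ) :=
  {f | DifferentiableOn ℂ (ext0 f) (G : Set ℂ) ∧
    ¬ ∃ (Ω : Set ℂ) (F : ℂ → ℂ), IsOpen Ω ∧ IsConnected Ω ∧ (G : Set ℂ) ⊂ Ω ∧
      DifferentiableOn ℂ F Ω ∧ ∀ z : G, F z = f z}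

section transfer

open Pool.Agent.H45.Jets Metric

variable {G : Opens ℂ}

/-- The function on `G` given by a jet. -/
noncomputable def toFn (g : AI G) : G → ℂ := fun z => g.val 0 ⟨z, subset_closure z.2⟩

lemma ext0_toFn (g : AI G) {z : ℂ} (hz : z ∈ G) : ext0 (toFn g) z = ex (g.val 0) z := by
  have h := ext0_apply (toFn g) ⟨z, hz⟩
  simp only at h
  rw [h, ex_of_mem _ hz]
  rfl

lemma iteratedDeriv_toFn (g : AI G) (j : ℕ) {z : ℂ} (hz : z ∈ G) :
    iteratedDeriv j (ext0 (toFn g)) z = ex (g.val j) z := by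
  have h : ext0 (toFn g) =ᶠ[𝓝 z] ex (g.val 0) := by
    filter_upwards [G.isOpen.mem_nhds hz] with w hw using ext0_toFn g hw
  rw [h.iteratedDeriv_eq, iteratedDeriv_ex g.mem j hz]

lemma toFn_mem (g : AI G) : toFn g ∈ AInfty G := by
  refine ⟨?_, fun j => ⟨ex (g.val j), continuousOn_ex _, fun z hz => ?_⟩⟩
  · exact (differentiableOn_ex g.mem).congr fun z hz => ext0_toFn g hz
  · rw [iteratedDeriv_toFn g j hz]

/-- The linear map from jets to functions. -/
noncomputable def R (G : Opens ℂ) : AI G →ₗ[ℂ] ASpace G where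
  toFun g := (⟨toFn g, toFn_mem g⟩ : AInfty G)
  map_add' _ _ := rfl
  map_smul' _ _ := rfl

lemma R_fn (g : AI G) : (R G g).fn = toFn g := rfl

/-- Continuous functions on the closure agreeing on `G` agree. -/
lemma eq_of_eqOn (f g : C(closure (G : Set ℂ), ℂ))
    (h : ∀ z (hz : z ∈ (G : Set ℂ)), f ⟨z, subset_closure hz⟩ = g ⟨z, subset_closure hz⟩) : f = g := by
  have hd : Dense {x : closure (G : Set ℂ) | (x : ℂ) ∈ (G : Set ℂ)} := by
    intro x
    have hx := x.2
    rw [closure_subtype]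
    convert hx using 2
    ext y
    constructor
    · rintro ⟨w, hw, rfl⟩
      exact hw
    · intro hy
      exact ⟨⟨y, subset_closure hy⟩, hy, rfl⟩
  have h2 := Continuous.ext_on hd f.continuous g.continuous (fun x hx => h x hx)
  exact DFunLike.coe_injective h2

lemma R_injective : Function.Injective (R G) := by
  intro f g hfg
  have h1 : toFn f = toFn g := by
    rw [← R_fn, ← R_fn, hfg]
  apply AI.ext
  funext j
  apply eq_of_eqOn
  intro z hz
  rw [← ex_of_mem _ hz, ← ex_of_mem _ hz, ← iteratedDeriv_toFn f j hz, ← iteratedDeriv_toFn g j hz,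
    h1]

lemma R_surjective : Function.Surjective (R G) := by
  intro f
  obtain ⟨hf, hf'⟩ := f.mem
  choose g hg hg' using hf'
  let J : ℕ → C(closure (G : Set ℂ), ℂ) := fun j =>
    ⟨fun z => g j z, (continuousOn_iff_continuous_domRestrict.1 (hg j))⟩
  have hJ : J ∈ AInf G := ⟨ext0 f.fn, hf, fun j z hz => hg' j z hz⟩
  refine ⟨AI.mk J hJ, ?_⟩
  apply ASpace.ext
  rw [R_fn]
  funext z
  have h1 : toFn (AI.mk J hJ) z = g 0 z := rfl
  rw [h1, hg' 0 z z.2, iteratedDeriv_zero]
  exact ext0_apply _ _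

/-- Value of the seminorms on the image of a jet. -/
lemma sn_R (p : {K : Set ℂ // IsCompact K ∧ K ⊆ closure (G : Set ℂ)} × ℕ) (g : AI G) :
    sn G p (R G g) = ⨆ z : (p.1.1 ∩ G : Set ℂ), ‖ex (g.val p.2) z‖ := by
  have h : sn G p (R G g) = ⨆ z : (p.1.1 ∩ G : Set ℂ), ‖iteratedDeriv p.2 (ext0 (R G g).fn) z‖ := rfl
  rw [h]
  congr 1
  funext z
  rw [R_fn, iteratedDeriv_toFn g p.2 z.2.2]

lemma ex_sub (f g : C(closure (G : Set ℂ), ℂ)) (z : ℂ) : ex (f - g) z = ex f z - ex g z := by
  by_cases h : z ∈ closure (G : Set ℂ)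
  · rw [ex_of_mem' _ h, ex_of_mem' _ h, ex_of_mem' _ h]
    rfl
  · simp [ex, h]

lemma AI_val_sub (f g : AI G) : (f - g).val = f.val - g.val := rfl

lemma continuous_R : Continuous (R G) := by
  rw [continuous_iff_continuousAt]
  intro g₀
  rw [ContinuousAt, (withSeminorms G).tendsto_nhds]
  rintro ⟨⟨K, hK, hKG⟩, j⟩ ε hε
  have h1 : Tendsto (fun g : AI G => g.val j) (𝓝 g₀) (𝓝 (g₀.val j)) :=
    ((continuous_apply j).comp AI.continuous_val).continuousAt
  rw [ContinuousMap.tendsto_iff_forall_isCompact_tendstoUniformlyOn] at h1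
  have hK' : IsCompact ((↑) ⁻¹' K : Set (closure (G : Set ℂ))) :=
    isClosed_closure.isClosedEmbedding_subtypeVal.isCompact_preimage hK
  have h2 := Metric.tendstoUniformlyOn_iff.1 (h1 _ hK') (ε / 2) (by positivity)
  filter_upwards [h2] with g hg
  rw [← map_sub, sn_R]
  refine lt_of_le_of_lt ?_ (half_lt_self hε)
  apply Real.iSup_le
  · intro z
    have h3 := hg ⟨z, subset_closure z.2.2⟩ z.2.1
    rw [AI_val_sub, Pi.sub_apply, ex_sub, ex_of_mem _ z.2.2, ex_of_mem _ z.2.2]
    rw [dist_comm, dist_eq_norm] at h3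
    exact h3.le
  · positivity

lemma isInducing_R : IsInducing (R G) := by
  have hcont := continuous_R (G := G)
  rw [isInducing_iff_nhds]
  intro g₀
  refine le_antisymm (hcont.tendsto g₀).le_comap ?_
  -- the identity is continuous from the induced topology
  have h0 : Tendsto (fun g : AI G => g) (comap (R G) (𝓝 (R G g₀))) (𝓝 g₀) := by
    rw [AI.isInducing_val.tendsto_nhds_iff, tendsto_pi_nhds]
    intro j
    rw [ContinuousMap.tendsto_iff_forall_isCompact_tendstoUniformlyOn]
    intro K' hK'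
    rw [Metric.tendstoUniformlyOn_iff]
    intro ε hε
    obtain ⟨r, hr⟩ := (hK'.image continuous_subtype_val).isBounded.subset_ball (0 : ℂ)
    let K : Set ℂ := closure (G : Set ℂ) ∩ closedBall 0 r
    have hK : IsCompact K := (isCompact_closedBall 0 r).inter_left isClosed_closure
    have h1 : Tendsto (fun f : ASpace G => f) (𝓝 (R G g₀)) (𝓝 (R G g₀)) := tendsto_id
    rw [(withSeminorms G).tendsto_nhds] at h1
    have h2 := h1 (⟨K, hK, inter_subset_left⟩, j) (ε / 2) (by positivity)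
    have h3 : ∀ᶠ g in comap (R G) (𝓝 (R G g₀)),
        sn G (⟨K, hK, inter_subset_left⟩, j) (R G g - R G g₀) < ε / 2 := by
      exact h2.comap (R G)
    filter_upwards [h3] with g hg x hx
    rw [← map_sub, sn_R] at hg
    -- bound on `G ∩ ball`
    have hbd : BddAbove (range fun z : (K ∩ G : Set ℂ) => ‖ex ((g - g₀).val j) z‖) := by
      have := bddAbove (R G (g - g₀)) hK inter_subset_left j
      convert this using 3 with z
      rw [R_fn, iteratedDeriv_toFn _ _ z.2.2]
    have h4 : ∀ z ∈ (G : Set ℂ) ∩ ball 0 r, ‖ex ((g - g₀).val j) z‖ ≤ ε / 2 := by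
      intro z hz
      refine le_trans ?_ hg.le
      exact le_ciSup hbd ⟨z, ⟨subset_closure hz.1, ball_subset_closedBall hz.2⟩, hz.1⟩
    have hxr : (x : ℂ) ∈ ball (0 : ℂ) r := hr ⟨x, hx, rfl⟩
    have hxcl : (x : ℂ) ∈ closure ((G : Set ℂ) ∩ ball 0 r) := by
      have := isOpen_ball.inter_closure (s := ball (0 : ℂ) r) (t := (G : Set ℂ)) ⟨hxr, x.2⟩
      rwa [inter_comm] at this
    have hcontx : ContinuousWithinAt (ex ((g - g₀).val j)) ((G : Set ℂ) ∩ ball 0 r) x :=
      ((continuousOn_ex ((g - g₀).val j)) x x.2).mono (inter_subset_left.trans subset_closure)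
    have h5 : ‖ex ((g - g₀).val j) x‖ ≤ ε / 2 := by
      have hne : (𝓝[(G : Set ℂ) ∩ ball 0 r] (x : ℂ)).NeBot := mem_closure_iff_nhdsWithin_neBot.1 hxcl
      refine le_of_tendsto hcontx.norm ?_
      filter_upwards [self_mem_nhdsWithin] with z hz using h4 z hz
    rw [AI_val_sub, Pi.sub_apply, ex_sub, ex_of_mem' _ x.2, ex_of_mem' _ x.2] at h5
    rw [dist_comm, dist_eq_norm]
    exact h5.trans_lt (half_lt_self hε)
  exact h0

end transfer

/-- Valdivia's question has a positive answer: for every regular domain `G` there is a dense vector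
subspace of `A^∞(G)` which is a Baire space and whose nonzero elements have no holomorphic
extension to a strictly larger domain. -/
theorem result (G : Opens ℂ) (hconn : IsConnected (G : Set ℂ))
    (hreg : interior (closure (G : Set ℂ)) = G) :
    ∃ E : Submodule ℂ (ASpace G), Dense (E : Set (ASpace G)) ∧
      (∀ f ∈ E, f ≠ 0 → f.fn ∈ HeTilde G) ∧ BaireSpace E := by
  obtain ⟨E', hE1, hE2, hE3⟩ := Pool.Agent.H45.Jets.main hconn.nonempty hreg
  refine ⟨E'.map (R G), ?_, ?_, ?_⟩
  · rw [Submodule.map_coe]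
    exact R_surjective.denseRange.dense_image continuous_R hE1
  · rintro _ ⟨g, hg, rfl⟩ h0
    have hg0 : g ≠ 0 := by
      rintro rfl
      exact h0 (map_zero _)
    refine ⟨(R G g).mem.1, ?_⟩
    rintro ⟨Ω, F, h1, h2, h3, h4, h5⟩
    exact hE2 g hg hg0 ⟨Ω, F, h1, h2, h3, h4, fun z hz => h5 ⟨z, hz⟩⟩
  · -- transfer of the Baire property
    let φ : E' → (E'.map (R G)) := fun g => ⟨R G g, Submodule.mem_map_of_mem g.2⟩
    have hφsurj : Function.Surjective φ := by
      rintro ⟨_, g, hg, rfl⟩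
      exact ⟨⟨g, hg⟩, rfl⟩
    have hφind : IsInducing φ := by
      have h1 : IsInducing (fun g : E' => R G g) := isInducing_R.comp IsInducing.subtypeVal
      have h2 : IsInducing (((↑) : (E'.map (R G)) → ASpace G) ∘ φ) := h1
      exact IsInducing.of_comp (h2.continuous.subtype_mk _) continuous_subtype_val h2
    refine ⟨fun U hUo hUd => ?_⟩
    have hφopen : IsOpenMap φ := hφind.isOpenMap (by rw [hφsurj.range_eq]; exact isOpen_univ)
    have h1 : Dense (⋂ n, φ ⁻¹' (U n)) :=
      dense_iInter_of_isOpen (fun n => (hUo n).preimage hφind.continuous)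
        (fun n => (hUd n).preimage hφopen)
    have h2 := hφsurj.denseRange.dense_image hφind.continuous h1
    refine h2.mono ?_
    rintro _ ⟨x, hx, rfl⟩
    rw [mem_iInter] at hx ⊢
    exact hx

end Pool.Agent.Results.MP_2e37b9_an.BaireDense
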